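import Pool.Agent.H27.HB.TF

/-! Row BND of `hbe_modules`: size of the monomials and of their gradients. -/

set_option autoImplicit false

namespace Pool.Agent.H79.HB
open MeasureTheory Set Filter Topology Pool.Agent.H80.HS Pool.Agent.H93.HQ Pool.Agent.H27.HB
open scoped ContDiff ENNReal

/-- a function on a line with value at most `A` and derivative at most `c A / q` at the origin -/
def Bd (q : ℝ) (f : ℝ → ℂ) (A c : ℝ) : Prop :=
  0 ≤ A ∧ 0 ≤ c ∧ ∃ f' : ℂ, HasDerivAt f f' 0 ∧ ‖f 0‖ ≤ A ∧ ‖f'‖ ≤ c * A / q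

lemma bd_mul {q : ℝ} (hq : 0 < q) {f g : ℝ → ℂ} {A B c d : ℝ} (hf : Bd q f A c)
    (hg : Bd q g B d) : Bd q (fun t => f t * g t) (A * B) (c + d) := by
  obtain ⟨hA, hc, f', hf1, hf2, hf3⟩ := hf
  obtain ⟨hB, hd, g', hg1, hg2, hg3⟩ := hg
  refine ⟨mul_nonneg hA hB, add_nonneg hc hd, _, hf1.mul hg1, ?_, ?_⟩
  · rw [norm_mul]
    exact mul_le_mul hf2 hg2 (norm_nonneg _) hA
  · calc ‖f' * g 0 + f 0 * g'‖ ≤ ‖f'‖ * ‖g 0‖ + ‖f 0‖ * ‖g'‖ := by
          refine (norm_add_le _ _).trans ?_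
          rw [norm_mul, norm_mul]
      _ ≤ (c * A / q) * B + A * (d * B / q) := by gcongr
      _ = (c + d) * (A * B) / q := by ring

lemma bd_pow {q : ℝ} (hq : 0 < q) {f : ℝ → ℂ} {A c : ℝ} (hf : Bd q f A c) (m : ℕ) :
    Bd q (fun t => f t ^ m) (A ^ m) (m * c) := by
  induction m with
  | zero =>
    refine ⟨by simp, by simp, 0, ?_, by simp, by simp⟩
    simpa using hasDerivAt_const (0 : ℝ) (1 : ℂ)
  | succ m ih =>
    have h := bd_mul hq ih hf
    have h1 : (fun t => f t ^ m * f t) = fun t => f t ^ (m + 1) := by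
      funext t
      rw [pow_succ]
    have h2 : (m : ℝ) * c + c = ((m + 1 : ℕ) : ℝ) * c := by
      push_cast
      ring
    rw [h1, h2, ← pow_succ] at h
    exact h

lemma bd_prod {q : ℝ} (hq : 0 < q) {ι : Type} (F : ι → ℝ → ℂ) (hF : ∀ k, Bd q (F k) q 1)
    (α : ι → ℕ) (s : Finset ι) :
    Bd q (fun t => ∏ k ∈ s, F k t ^ α k) (q ^ (∑ k ∈ s, α k)) ((∑ k ∈ s, α k : ℕ) : ℝ) := by
  classical
  induction s using Finset.induction_on with
  | empty =>
    refine ⟨by simp, by simp, 0, ?_, by simp, by simp⟩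
    simpa using hasDerivAt_const (0 : ℝ) (1 : ℂ)
  | insert k s hk ih =>
    have h := bd_mul hq (bd_pow hq (hF k) (α k)) ih
    have h1 : (fun t => F k t ^ α k * ∏ i ∈ s, F i t ^ α i) =
        fun t => ∏ i ∈ insert k s, F i t ^ α i := by
      funext t
      rw [Finset.prod_insert hk]
    have h2 : (α k : ℝ) * 1 + ((∑ i ∈ s, α i : ℕ) : ℝ) = ((∑ i ∈ insert k s, α i : ℕ) : ℝ) := by
      rw [Finset.sum_insert hk]
      push_cast
      ring
    rw [h1, h2, ← pow_add, ← Finset.sum_insert hk] at h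
    exact h

section point

variable {n : ℕ} (z : H n)

lemma nu_re : (nu z).re = 1 + sq z := rfl

lemma nu_norm : 1 + sq z ≤ ‖nu z‖ := by
  have h := Complex.abs_re_le_norm (nu z)
  rw [nu_re] at h
  exact (le_abs_self _).trans h

lemma nu_one : 1 ≤ ‖nu z‖ := by
  have := nu_norm z
  have := sq_nonneg' z
  linarith

lemma ww_eq : ww z = ‖nu z‖ ^ 2 := by
  rw [Complex.sq_norm, Complex.normSq_apply]
  show (1 + sq z) ^ 2 + z.2.2 ^ 2 = (1 + sq z) * (1 + sq z) + (-z.2.2) * (-z.2.2)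
  ring

lemma ww_one : 1 ≤ ww z := by
  rw [ww_eq]
  exact one_le_pow₀ (nu_one z)

/-- `|ν|^(1/2)` -/
noncomputable def qq : ℝ := Real.sqrt ‖nu z‖

lemma qq_sq : qq z ^ 2 = ‖nu z‖ := Real.sq_sqrt (norm_nonneg _)

lemma qq_one : 1 ≤ qq z := Real.one_le_sqrt.2 (nu_one z)

lemma qq_pos : 0 < qq z := lt_of_lt_of_le one_pos (qq_one z)

lemma zc_le (k : Fin n) : ‖zc k z‖ ≤ qq z := by
  refine le_of_sq_le_sq ?_ (qq_pos z).le
  rw [qq_sq, Complex.sq_norm, Complex.normSq_apply]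
  have h1 := PiLp.norm_apply_le z.1 k
  have h2 := PiLp.norm_apply_le z.2.1 k
  have h3 : z.1 k ^ 2 ≤ ‖z.1‖ ^ 2 := by
    rw [← sq_abs (z.1 k)]
    exact pow_le_pow_left₀ (abs_nonneg _) h1 2
  have h4 : z.2.1 k ^ 2 ≤ ‖z.2.1‖ ^ 2 := by
    rw [← sq_abs (z.2.1 k)]
    exact pow_le_pow_left₀ (abs_nonneg _) h2 2
  have h5 := nu_norm z
  unfold Pool.Agent.H93.HQ.sq at h5
  show z.1 k * z.1 k + z.2.1 k * z.2.1 k ≤ _
  nlinarith

lemma bd_conj {q : ℝ} {f : ℝ → ℂ} {A c : ℝ} (hf : Bd q f A c) :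
    Bd q (fun t => starRingEnd ℂ (f t)) A c := by
  obtain ⟨hA, hc, f', hf1, hf2, hf3⟩ := hf
  refine ⟨hA, hc, starRingEnd ℂ f', hf1.star, ?_, ?_⟩
  · rw [Complex.norm_conj]
    exact hf2
  · rw [Complex.norm_conj]
    exact hf3

lemma zero_line (v : H n) : z + (0 : ℝ) • v = z := by rw [zero_smul, add_zero]

lemma bd_zc (v : H n) (w : ℂ) (k : Fin n) (hw : ‖w‖ ≤ 1)
    (hz : HasDerivAt (fun t : ℝ => zc k (z + t • v)) w 0) :
    Bd (qq z) (fun t => zc k (z + t • v)) (qq z) 1 := by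
  refine ⟨(qq_pos z).le, zero_le_one, w, hz, ?_, ?_⟩
  · show ‖zc k (z + (0 : ℝ) • v)‖ ≤ _
    rw [zero_line]
    exact zc_le z k
  · rw [one_mul, div_self (qq_pos z).ne']
    exact hw

lemma bd_nu (v : H n) (d : ℂ) (hd : ‖d‖ ≤ 2 * qq z)
    (hn : HasDerivAt (fun t : ℝ => nu (z + t • v)) d 0) :
    Bd (qq z) (fun t => (nu (z + t • v))⁻¹) ((qq z ^ 2)⁻¹) 2 := by
  have hq := qq_pos z
  have h0 : nu (z + (0 : ℝ) • v) ≠ 0 := by
    rw [zero_line]
    exact norm_pos_iff.1 (lt_of_lt_of_le one_pos (nu_one z))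
  refine ⟨by positivity, by norm_num, _, hn.inv h0, ?_, ?_⟩
  · show ‖(nu (z + (0 : ℝ) • v))⁻¹‖ ≤ _
    rw [zero_line, norm_inv, qq_sq]
  · rw [zero_line, norm_div, norm_neg, norm_pow, ← qq_sq]
    have h1 : 2 * (qq z ^ 2)⁻¹ / qq z = 2 * qq z / (qq z ^ 2) ^ 2 := by
      field_simp
    rw [h1]
    gcongr

lemma bd_u0 (v : H n) (d : ℂ) (hd : ‖d‖ ≤ 2 * qq z)
    (hn : HasDerivAt (fun t : ℝ => nu (z + t • v)) d 0) :
    Bd (qq z) (fun t => (u0 n (z + t • v) : ℂ)) (u0 n z) (2 * n) := by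
  have hq := qq_pos z
  have hwp : 0 < ww z := lt_of_lt_of_le one_pos (ww_one z)
  have hu : 0 ≤ u0 n z := Real.rpow_nonneg hwp.le _
  have hre : HasDerivAt (fun t : ℝ => (nu (z + t • v)).re) d.re 0 :=
    Complex.reCLM.hasFDerivAt.comp_hasDerivAt 0 hn
  have him : HasDerivAt (fun t : ℝ => (nu (z + t • v)).im) d.im 0 :=
    Complex.imCLM.hasFDerivAt.comp_hasDerivAt 0 hn
  have hww : HasDerivAt (fun t : ℝ => ww (z + t • v))
      (2 * ((nu z).re * d.re + (nu z).im * d.im)) 0 := by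
    have h1 := (hre.pow 2).add (him.pow 2)
    have h2 : (fun t : ℝ => ww (z + t • v)) =
        (fun t : ℝ => (nu (z + t • v)).re) ^ 2 + (fun t : ℝ => (nu (z + t • v)).im) ^ 2 := by
      funext t
      rw [ww_eq, Complex.sq_norm, Complex.normSq_apply]
      show _ = (nu (z + t • v)).re ^ 2 + (nu (z + t • v)).im ^ 2
      ring
    rw [h2]
    refine h1.congr_deriv ?_
    rw [zero_line]
    norm_num
    ring
  have h0 : ww (z + (0 : ℝ) • v) ≠ 0 := by
    rw [zero_line]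
    exact hwp.ne'
  have hpw := (hww.rpow_const (p := -(n : ℝ) / 2) (Or.inl h0)).ofReal_comp
  refine ⟨hu, by positivity, _, hpw, ?_, ?_⟩
  · show ‖(u0 n (z + (0 : ℝ) • v) : ℂ)‖ ≤ _
    rw [zero_line, Complex.norm_real, Real.norm_eq_abs, abs_of_nonneg hu]
  · have h4 : |2 * ((nu z).re * d.re + (nu z).im * d.im)| ≤ 4 * qq z ^ 3 := by
      have h5 : ((nu z).re * d.re + (nu z).im * d.im) = (nu z * starRingEnd ℂ d).re := by
        rw [Complex.mul_re, Complex.conj_re, Complex.conj_im]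
        ring
      have h6 : |((nu z).re * d.re + (nu z).im * d.im)| ≤ ‖nu z‖ * ‖d‖ := by
        rw [h5]
        refine (Complex.abs_re_le_norm _).trans ?_
        rw [norm_mul, Complex.norm_conj]
      rw [abs_mul, abs_two]
      calc 2 * |((nu z).re * d.re + (nu z).im * d.im)| ≤ 2 * (‖nu z‖ * ‖d‖) := by gcongr
        _ ≤ 2 * (qq z ^ 2 * (2 * qq z)) := by
          rw [← qq_sq]
          gcongr
        _ = 4 * qq z ^ 3 := by ring
    have h7 : ww z ^ (-(n : ℝ) / 2 - 1) = u0 n z / qq z ^ 4 := by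
      rw [Real.rpow_sub_one hwp.ne']
      have h8 : qq z ^ 4 = ww z := by
        rw [ww_eq, ← qq_sq]
        ring
      rw [h8]
      rfl
    rw [zero_line, Complex.norm_real, Real.norm_eq_abs, h7, abs_mul, abs_mul,
      abs_of_nonneg (by positivity : (0 : ℝ) ≤ u0 n z / qq z ^ 4)]
    have h9 : |(-(n : ℝ) / 2)| = n / 2 := by
      rw [neg_div, abs_neg, abs_of_nonneg (by positivity)]
    rw [h9]
    calc |2 * ((nu z).re * d.re + (nu z).im * d.im)| * (n / 2) * (u0 n z / qq z ^ 4)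
        ≤ 4 * qq z ^ 3 * (n / 2) * (u0 n z / qq z ^ 4) := by gcongr
      _ = 2 * n * u0 n z / qq z := by
        field_simp
        ring

/-- the monomials on a line -/
lemma bd_EE (α β : Fin n → ℕ) (a b : ℕ) (v : H n) (w : Fin n → ℂ) (d : ℂ)
    (hw : ∀ k, ‖w k‖ ≤ 1) (hz : ∀ k, HasDerivAt (fun t : ℝ => zc k (z + t • v)) (w k) 0)
    (hd : ‖d‖ ≤ 2 * qq z) (hn : HasDerivAt (fun t : ℝ => nu (z + t • v)) d 0) :
    Bd (qq z) (fun t => EE α β a b (z + t • v))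
      (u0 n z * qq z ^ (∑ k, α k) * qq z ^ (∑ k, β k) *
        (((qq z ^ 2)⁻¹) ^ a * ((qq z ^ 2)⁻¹) ^ b))
      (2 * n + ((∑ k, α k : ℕ) : ℝ) + ((∑ k, β k : ℕ) : ℝ) + (a * 2 + b * 2)) := by
  have hq := qq_pos z
  have h1 := bd_mul hq (bd_mul hq (bd_mul hq (bd_u0 z v d hd hn)
    (bd_prod hq _ (fun k => bd_zc z v (w k) k (hw k) (hz k)) α Finset.univ))
    (bd_prod hq _ (fun k => bd_conj (bd_zc z v (w k) k (hw k) (hz k))) β Finset.univ))
    (bd_mul hq (bd_pow hq (bd_nu z v d hd hn) a) (bd_pow hq (bd_conj (bd_nu z v d hd hn)) b))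
  convert h1 using 1
  funext t
  unfold EE
  rw [div_eq_mul_inv, mul_inv, inv_pow, map_inv₀, inv_pow]

lemma A_le (α β : Fin n → ℕ) (a b : ℕ) (hα : (∑ j, α j) ≤ a) (hβ : (∑ j, β j) ≤ b) :
    u0 n z * qq z ^ (∑ k, α k) * qq z ^ (∑ k, β k) *
        (((qq z ^ 2)⁻¹) ^ a * ((qq z ^ 2)⁻¹) ^ b) ≤ u0 n z := by
  have hq := qq_pos z
  have hq1 := qq_one z
  have hwp : 0 < ww z := lt_of_lt_of_le one_pos (ww_one z)
  have hu : 0 ≤ u0 n z := Real.rpow_nonneg hwp.le _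
  have h : ∀ s c : ℕ, s ≤ c → qq z ^ s * ((qq z ^ 2)⁻¹) ^ c ≤ 1 := by
    intro s c hs
    rw [inv_pow, ← div_eq_mul_inv, div_le_one (by positivity), ← pow_mul]
    exact pow_le_pow_right₀ hq1 (by omega)
  have h1 := h _ _ hα
  have h2 := h _ _ hβ
  calc _ = u0 n z * ((qq z ^ (∑ k, α k) * ((qq z ^ 2)⁻¹) ^ a) *
        (qq z ^ (∑ k, β k) * ((qq z ^ 2)⁻¹) ^ b)) := by ring
    _ ≤ u0 n z * (1 * 1) := by gcongr
    _ = u0 n z := by ring

/-- the directional derivatives of the monomials -/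
lemma fderiv_EE (α β : Fin n → ℕ) (a b : ℕ) (hα : (∑ j, α j) ≤ a) (hβ : (∑ j, β j) ≤ b)
    (v : H n) (w : Fin n → ℂ) (d : ℂ)
    (hw : ∀ k, ‖w k‖ ≤ 1) (hz : ∀ k, HasDerivAt (fun t : ℝ => zc k (z + t • v)) (w k) 0)
    (hd : ‖d‖ ≤ 2 * qq z) (hn : HasDerivAt (fun t : ℝ => nu (z + t • v)) d 0) :
    ‖fderiv ℝ (EE α β a b) z v‖ ≤ (2 * n + 3 * a + 3 * b) * u0 n z / qq z := by
  have hq := qq_pos z
  have hwp : 0 < ww z := lt_of_lt_of_le one_pos (ww_one z)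
  have hu : 0 ≤ u0 n z := Real.rpow_nonneg hwp.le _
  by_cases hdf : DifferentiableAt ℝ (EE α β a b) z
  · have h1 : HasDerivAt (fun t : ℝ => EE α β a b (z + t • v)) (fderiv ℝ (EE α β a b) z v) 0 :=
      hdf.hasFDerivAt.hasLineDerivAt v
    obtain ⟨-, -, f', hf1, -, hf3⟩ := bd_EE z α β a b v w d hw hz hd hn
    rw [h1.unique hf1]
    refine hf3.trans ?_
    have h2 := A_le z α β a b hα hβ
    have h3 : ((∑ k, α k : ℕ) : ℝ) ≤ a := by exact_mod_cast hα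
    have h4 : ((∑ k, β k : ℕ) : ℝ) ≤ b := by exact_mod_cast hβ
    refine div_le_div_of_nonneg_right ?_ hq.le
    refine mul_le_mul ?_ h2 (by positivity) (by positivity)
    linarith
  · rw [fderiv_zero_of_not_differentiableAt hdf]
    rw [_root_.zero_apply, norm_zero]
    positivity

lemma norm_EE (α β : Fin n → ℕ) (a b : ℕ) (hα : (∑ j, α j) ≤ a) (hβ : (∑ j, β j) ≤ b) :
    ‖EE α β a b z‖ ≤ u0 n z := by
  have hc : ∀ g : H n → ℂ, HasDerivAt (fun t : ℝ => g (z + t • (0 : H n))) 0 0 := by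
    intro g
    simp only [smul_zero, add_zero]
    exact hasDerivAt_const _ _
  obtain ⟨-, -, f', -, h, -⟩ := bd_EE z α β a b 0 0 0 (fun k => by simp) (fun k => hc _)
    (by rw [norm_zero]; have := qq_pos z; positivity) (hc _)
  have h1 : ‖EE α β a b (z + (0 : ℝ) • (0 : H n))‖ ≤ _ := h
  rw [zero_line] at h1
  exact h1.trans (A_le z α β a b hα hβ)

lemma ofReal_line (x y : ℝ) : HasDerivAt (fun t : ℝ => x + t * y) y 0 := by
  simpa using ((hasDerivAt_id (0 : ℝ)).mul_const y).const_add x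

lemma mk_line {f g : ℝ → ℝ} {f' g' : ℝ} (hf : HasDerivAt f f' 0) (hg : HasDerivAt g g' 0) :
    HasDerivAt (fun t : ℝ => (⟨f t, g t⟩ : ℂ)) ⟨f', g'⟩ 0 := by
  have h := hf.ofReal_comp.add (hg.ofReal_comp.mul_const Complex.I)
  have h1 : (fun t : ℝ => (⟨f t, g t⟩ : ℂ)) =
      (fun t => (f t : ℂ)) + fun t => (g t : ℂ) * Complex.I := by
    funext t
    exact Complex.mk_eq_add_mul_I _ _
  rw [h1]
  refine h.congr_deriv ?_
  exact (Complex.mk_eq_add_mul_I _ _).symm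

lemma nsq_line (x y : V n) : HasDerivAt (fun t : ℝ => ‖x + t • y‖ ^ 2) (2 * inner ℝ x y) 0 := by
  have h : (fun t : ℝ => ‖x + t • y‖ ^ 2) =
      fun t => ‖x‖ ^ 2 + t * (2 * inner ℝ x y) + t ^ 2 * ‖y‖ ^ 2 := by
    funext t
    rw [norm_add_sq_real, inner_smul_right, norm_smul, mul_pow, Real.norm_eq_abs, sq_abs]
    ring
  rw [h]
  have h1 := (ofReal_line (‖x‖ ^ 2) (2 * inner ℝ x y)).add
    (((hasDerivAt_id (0 : ℝ)).pow 2).mul_const (‖y‖ ^ 2))
  refine h1.congr_deriv ?_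
  simp

lemma X_line (j : Fin n) (α β : Fin n → ℕ) (a b : ℕ) (hα : (∑ j, α j) ≤ a)
    (hβ : (∑ j, β j) ≤ b) :
    ‖X (EE α β a b) j z‖ ≤ (2 * n + 3 * a + 3 * b) * u0 n z / qq z := by
  refine fderiv_EE z α β a b hα hβ _ (fun k => ⟨EuclideanSpace.single j (1 : ℝ) k, 0⟩)
    ⟨2 * inner ℝ z.1 (EuclideanSpace.single j (1 : ℝ)), -(2 * z.2.1 j)⟩ ?_ ?_ ?_ ?_
  · intro k
    rw [← Complex.ofReal_def, Complex.norm_real]
    by_cases h : k = j
    · rw [h]
      simp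
    · rw [EuclideanSpace.single_apply, if_neg h]
      simp
  · intro k
    refine mk_line ?_ ?_
    · exact ofReal_line (z.1 k) _
    · show HasDerivAt (fun t : ℝ => z.2.1 k + t * 0) 0 0
      exact ofReal_line (z.2.1 k) 0
  · have h1 : (⟨2 * inner ℝ z.1 (EuclideanSpace.single j (1 : ℝ)), -(2 * z.2.1 j)⟩ : ℂ) =
        2 * starRingEnd ℂ (zc j z) := by
      rw [EuclideanSpace.inner_single_right]
      apply Complex.ext
      · simp [zc]
      · simp [zc]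
    rw [h1, norm_mul, Complex.norm_conj]
    have := zc_le z j
    norm_num
    exact this
  · refine mk_line ?_ ?_
    · have h1 := (nsq_line z.1 (EuclideanSpace.single j (1 : ℝ))).const_add (1 + ‖z.2.1‖ ^ 2)
      have h2 : (fun t : ℝ => 1 + Pool.Agent.H93.HQ.sq
          (z + t • ((EuclideanSpace.single j (1 : ℝ), 0, 2 * z.2.1 j) : H n))) =
          fun t => 1 + ‖z.2.1‖ ^ 2 + ‖z.1 + t • EuclideanSpace.single j (1 : ℝ)‖ ^ 2 := by
        funext t
        show 1 + (‖z.1 + t • EuclideanSpace.single j (1 : ℝ)‖ ^ 2 +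
          ‖z.2.1 + t • (0 : V n)‖ ^ 2) = _
        rw [smul_zero, add_zero]
        ring
      rw [h2]
      exact h1
    · have h1 := ofReal_line (-z.2.2) (-(2 * z.2.1 j))
      refine h1.congr_of_eventuallyEq (Eventually.of_forall fun t => ?_)
      show -(z.2.2 + t * (2 * z.2.1 j)) = -z.2.2 + t * -(2 * z.2.1 j)
      ring

lemma Y_line (j : Fin n) (α β : Fin n → ℕ) (a b : ℕ) (hα : (∑ j, α j) ≤ a)
    (hβ : (∑ j, β j) ≤ b) :
    ‖Y (EE α β a b) j z‖ ≤ (2 * n + 3 * a + 3 * b) * u0 n z / qq z := by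
  refine fderiv_EE z α β a b hα hβ _ (fun k => ⟨0, EuclideanSpace.single j (1 : ℝ) k⟩)
    ⟨2 * inner ℝ z.2.1 (EuclideanSpace.single j (1 : ℝ)), 2 * z.1 j⟩ ?_ ?_ ?_ ?_
  · intro k
    have h0 : (⟨0, EuclideanSpace.single j (1 : ℝ) k⟩ : ℂ) =
        ((EuclideanSpace.single j (1 : ℝ) k : ℝ) : ℂ) * Complex.I := by
      rw [Complex.mk_eq_add_mul_I]
      simp
    rw [h0, norm_mul, Complex.norm_real, Complex.norm_I, mul_one]
    by_cases h : k = j
    · rw [h]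
      simp
    · rw [EuclideanSpace.single_apply, if_neg h]
      simp
  · intro k
    refine mk_line ?_ ?_
    · show HasDerivAt (fun t : ℝ => z.1 k + t * 0) 0 0
      exact ofReal_line (z.1 k) 0
    · exact ofReal_line (z.2.1 k) _
  · have h1 : (⟨2 * inner ℝ z.2.1 (EuclideanSpace.single j (1 : ℝ)), 2 * z.1 j⟩ : ℂ) =
        2 * (Complex.I * starRingEnd ℂ (zc j z)) := by
      rw [EuclideanSpace.inner_single_right]
      apply Complex.ext
      · simp [zc]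
      · simp [zc]
    rw [h1, norm_mul, norm_mul, Complex.norm_conj, Complex.norm_I, one_mul]
    have := zc_le z j
    norm_num
    exact this
  · refine mk_line ?_ ?_
    · have h1 := (nsq_line z.2.1 (EuclideanSpace.single j (1 : ℝ))).const_add (1 + ‖z.1‖ ^ 2)
      have h2 : (fun t : ℝ => 1 + Pool.Agent.H93.HQ.sq
          (z + t • ((0, EuclideanSpace.single j (1 : ℝ), -2 * z.1 j) : H n))) =
          fun t => 1 + ‖z.1‖ ^ 2 + ‖z.2.1 + t • EuclideanSpace.single j (1 : ℝ)‖ ^ 2 := by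
        funext t
        show 1 + (‖z.1 + t • (0 : V n)‖ ^ 2 +
          ‖z.2.1 + t • EuclideanSpace.single j (1 : ℝ)‖ ^ 2) = _
        rw [smul_zero, add_zero]
        ring
      rw [h2]
      exact h1
    · have h1 := ofReal_line (-z.2.2) (2 * z.1 j)
      refine h1.congr_of_eventuallyEq (Eventually.of_forall fun t => ?_)
      show -(z.2.2 + t * (-2 * z.1 j)) = -z.2.2 + t * (2 * z.1 j)
      ring

lemma u0_qq : (u0 n z / qq z) ^ 2 = ww z ^ (-((n : ℝ) + 1 / 2)) := by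
  have hwp : 0 < ww z := lt_of_lt_of_le one_pos (ww_one z)
  have h1 : qq z ^ 2 = ww z ^ (1 / 2 : ℝ) := by
    rw [qq_sq, ww_eq, ← Real.sqrt_eq_rpow, Real.sqrt_sq (norm_nonneg _)]
  have h2 : u0 n z ^ 2 = ww z ^ (-(n : ℝ)) := by
    unfold u0
    rw [← Real.rpow_natCast, ← Real.rpow_mul hwp.le]
    congr 1
    push_cast
    ring
  rw [div_pow, h1, h2, ← Real.rpow_sub hwp]
  congr 1
  ring

end point

lemma sum_update {n : ℕ} (α : Fin n → ℕ) (j : Fin n) (h : α j ≠ 0) :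
    (∑ k, Function.update α j (α j - 1) k) + 1 = ∑ k, α k := by
  rw [Finset.sum_update_of_mem (Finset.mem_univ j), ← Finset.add_sum_erase _ _ (Finset.mem_univ j),
    Finset.sdiff_singleton_eq_erase]
  omega

theorem pf_BND : T_BND := by
  intro n hn α β a b hα hβ
  obtain ⟨c1, hc1⟩ : ∃ c : ℂ, c = 16 * ((n : ℂ) / 2 + a) * ((n : ℂ) / 2 + b) := ⟨_, rfl⟩
  obtain ⟨c2, hc2⟩ : ∃ c : ℂ, c = 8 * ((n : ℂ) / 2 + a) * ((b : ℂ) - ((∑ j, β j : ℕ) : ℂ)) :=
    ⟨_, rfl⟩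
  obtain ⟨c3, hc3⟩ : ∃ c : ℂ, c = 8 * ((n : ℂ) / 2 + b) * ((a : ℂ) - ((∑ j, α j : ℕ) : ℂ)) :=
    ⟨_, rfl⟩
  obtain ⟨C, hC⟩ : ∃ C : ℝ, C = ‖c1‖ + ‖c2‖ + ‖c3‖ + 4 * ∑ j, ‖(α j : ℂ) * (β j : ℂ)‖ := ⟨_, rfl⟩
  have hC0 : 0 ≤ C := by
    rw [hC]
    positivity
  refine ⟨1 + C + n * (2 * (2 * n + 3 * a + 3 * b) ^ 2), by positivity, fun z => ⟨?_, ?_, ?_⟩⟩
  · have hu : 0 ≤ u0 n z := Real.rpow_nonneg (le_trans zero_le_one (ww_one z)) _
    refine (norm_EE z α β a b hα hβ).trans ?_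
    have h1 : (1 : ℝ) ≤ 1 + C + n * (2 * (2 * n + 3 * a + 3 * b) ^ 2) := by
      have : (0 : ℝ) ≤ n * (2 * (2 * n + 3 * a + 3 * b) ^ 2) := by positivity
      linarith
    calc u0 n z = 1 * u0 n z := (one_mul _).symm
      _ ≤ _ := mul_le_mul_of_nonneg_right h1 hu
  · have hu : 0 ≤ u0 n z := Real.rpow_nonneg (le_trans zero_le_one (ww_one z)) _
    have h1 : ‖c1 * EE α β a b z‖ ≤ ‖c1‖ * u0 n z := by
      rw [norm_mul]
      exact mul_le_mul_of_nonneg_left (norm_EE z α β a b hα hβ) (norm_nonneg _)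
    have h2 : ‖c2 * EE α β a (b - 1) z‖ ≤ ‖c2‖ * u0 n z := by
      rw [norm_mul]
      by_cases h : ∑ j, β j = b
      · rw [hc2, h, sub_self, mul_zero, norm_zero, zero_mul, zero_mul]
      · exact mul_le_mul_of_nonneg_left (norm_EE z α β a (b - 1) hα (by omega)) (norm_nonneg _)
    have h3 : ‖c3 * EE α β (a - 1) b z‖ ≤ ‖c3‖ * u0 n z := by
      rw [norm_mul]
      by_cases h : ∑ j, α j = a
      · rw [hc3, h, sub_self, mul_zero, norm_zero, zero_mul, zero_mul]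
      · exact mul_le_mul_of_nonneg_left (norm_EE z α β (a - 1) b (by omega) hβ) (norm_nonneg _)
    have h4 : ‖4 * ∑ j, (α j : ℂ) * (β j : ℂ) * EE (Function.update α j (α j - 1))
        (Function.update β j (β j - 1)) (a - 1) (b - 1) z‖ ≤
        (4 * ∑ j, ‖(α j : ℂ) * (β j : ℂ)‖) * u0 n z := by
      rw [norm_mul, mul_assoc, Finset.sum_mul]
      have h5 : ‖(4 : ℂ)‖ = 4 := by norm_num
      rw [h5]
      refine mul_le_mul_of_nonneg_left ?_ (by norm_num)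
      refine (norm_sum_le _ _).trans (Finset.sum_le_sum fun j _ => ?_)
      rw [norm_mul ((α j : ℂ) * (β j : ℂ))]
      by_cases ha : α j = 0
      · rw [ha, Nat.cast_zero, zero_mul, norm_zero, zero_mul, zero_mul]
      by_cases hb : β j = 0
      · rw [hb, Nat.cast_zero, mul_zero, norm_zero, zero_mul, zero_mul]
      have h6 := sum_update α j ha
      have h7 := sum_update β j hb
      exact mul_le_mul_of_nonneg_left (norm_EE z _ _ _ _ (by omega) (by omega)) (norm_nonneg _)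
    have h5 : ‖LL α β a b z‖ ≤ C * u0 n z := by
      unfold LL
      rw [← hc1, ← hc2, ← hc3, hC]
      calc _ ≤ ‖c1 * EE α β a b z‖ + ‖c2 * EE α β a (b - 1) z‖ + ‖c3 * EE α β (a - 1) b z‖ +
            ‖4 * ∑ j, (α j : ℂ) * (β j : ℂ) * EE (Function.update α j (α j - 1))
              (Function.update β j (β j - 1)) (a - 1) (b - 1) z‖ := by
            refine (norm_sub_le _ _).trans (add_le_add_left ?_ _)
            refine (norm_sub_le _ _).trans (add_le_add_left ?_ _)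
            exact norm_sub_le _ _
        _ ≤ _ := by linarith
    refine h5.trans (mul_le_mul_of_nonneg_right ?_ hu)
    have : (0 : ℝ) ≤ n * (2 * (2 * n + 3 * a + 3 * b) ^ 2) := by positivity
    linarith
  · have hq := qq_pos z
    have hwp : 0 < ww z := lt_of_lt_of_le one_pos (ww_one z)
    rw [← u0_qq]
    have h1 : ∀ j : Fin n, ‖X (EE α β a b) j z‖ ^ 2 + ‖Y (EE α β a b) j z‖ ^ 2 ≤
        2 * (2 * n + 3 * a + 3 * b) ^ 2 * (u0 n z / qq z) ^ 2 := by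
      intro j
      have h2 := pow_le_pow_left₀ (norm_nonneg _) (X_line z j α β a b hα hβ) 2
      have h3 := pow_le_pow_left₀ (norm_nonneg _) (Y_line z j α β a b hα hβ) 2
      rw [mul_div_assoc, mul_pow] at h2 h3
      linarith
    calc _ ≤ ∑ j : Fin n, 2 * (2 * (n : ℝ) + 3 * a + 3 * b) ^ 2 * (u0 n z / qq z) ^ 2 :=
          Finset.sum_le_sum fun j _ => h1 j
      _ = n * (2 * (2 * n + 3 * a + 3 * b) ^ 2) * (u0 n z / qq z) ^ 2 := by
          rw [Finset.sum_const, Finset.card_univ, Fintype.card_fin, nsmul_eq_mul]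
          ring
      _ ≤ _ := by
          refine mul_le_mul_of_nonneg_right ?_ (sq_nonneg _)
          linarith

end Pool.Agent.H79.HB
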