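import Pool.Agent.H27.HB.TA
import Pool.Agent.H27.HB.TF

/-! Row CL2 of `hbe_modules`: centred extremals for `p = 2`. -/

set_option autoImplicit false

namespace Pool.Agent.H79.HB
open MeasureTheory Set Filter Topology Pool.Agent.H80.HS Pool.Agent.H93.HQ Pool.Agent.H27.HB
open scoped ContDiff ENNReal

/-- the sum of the squares of the gradients of the products -/
lemma sum_sq {n : ℕ} {ι : Type} [Fintype ι] (r : ι → ℝ) (γ : ι → G n) (g : G n) (u : ℝ) :
    ∑ i, ‖r i • g + u • γ i‖ ^ 2 =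
      ‖g‖ ^ 2 * ∑ i, r i ^ 2 + 2 * u * inner ℝ g (∑ i, r i • γ i) + u ^ 2 * ∑ i, ‖γ i‖ ^ 2 := by
  have h : ∀ i, ‖r i • g + u • γ i‖ ^ 2 =
      ‖g‖ ^ 2 * r i ^ 2 + 2 * u * inner ℝ g (r i • γ i) + u ^ 2 * ‖γ i‖ ^ 2 := by
    intro i
    rw [norm_add_sq_real, norm_smul, norm_smul, mul_pow, mul_pow, Real.norm_eq_abs,
      Real.norm_eq_abs, sq_abs, sq_abs, inner_smul_left, inner_smul_right, inner_smul_right]
    show r i ^ 2 * ‖g‖ ^ 2 + 2 * (r i * (u * inner ℝ g (γ i))) + u ^ 2 * ‖γ i‖ ^ 2 = _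
    ring
  simp only [h, Finset.sum_add_distrib, ← Finset.mul_sum, inner_sum]

theorem pf_CL2 (hZID : T_ZID) (hZIQ : T_ZIQ) (hSV2 : T_SV2) (hPRD : T_PRD) (hGSE : T_GSE)
    (hKR0 : T_KR0) (_hWIN : T_WIN) : T_CL2 := by
  intro n hn S hS u g hE hpos hcen
  have hn0 : (0 : ℝ) < n := Nat.cast_pos.2 hn
  obtain ⟨hCl, hms, hen⟩ := hE
  obtain ⟨q, hq⟩ : ∃ q : ℝ, q = ps n 2 := ⟨_, rfl⟩
  have hq2 : q = 2 + 2 / n := by
    rw [hq]
    unfold ps
    have h1 : (2 * (n : ℝ) + 2 - 2) = 2 * n := by ring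
    rw [h1, div_eq_iff (by positivity)]
    have h2 : (2 : ℝ) / n * (2 * n) = 4 := by
      rw [div_mul_eq_mul_div, div_eq_iff hn0.ne']
      ring
    linear_combination -h2
  have hq0 : 0 < q := by
    rw [hq2]
    positivity
  obtain ⟨hZ1, hZ2, hZ3, hZ4, hZ5⟩ := hZID n hn
  -- the family
  obtain ⟨r, hr⟩ : ∃ r : Option (Fin n) × Bool → H n → ℝ, r = fun i z => rz i.1 i.2 z := ⟨_, rfl⟩
  have hsplit : ∀ {M : Type} [AddCommMonoid M] (F : Option (Fin n) × Bool → M),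
      ∑ i, F i = ∑ i : Option (Fin n), (F (i, true) + F (i, false)) := by
    intro M _ F
    rw [Fintype.sum_prod_type]
    refine Finset.sum_congr rfl fun i _ => ?_
    rw [Fintype.sum_bool]
  have hr1 : ∀ z, ∑ i, r i z ^ 2 = 1 := by
    intro z
    rw [hsplit, hr]
    exact hZ3 z
  have hr2 : ∀ z, ∑ i, r i z • hg (r i) z = 0 := by
    intro z
    rw [hsplit, hr]
    exact hZ4 z
  have hr3 : ∀ z, ∑ i, ‖hg (r i) z‖ ^ 2 = 8 * n / ww z := by
    intro z
    rw [hsplit, hr]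
    exact hZ5 z
  have hcd : ∀ i, ContDiff ℝ ∞ (r i) := fun i => by
    rw [hr]
    exact hZ1 i.1 i.2
  have hb : ∀ i z, |r i z| ≤ 1 := fun i z => by
    rw [hr]
    exact hZ2 i.1 i.2 z
  obtain ⟨h, hh⟩ : ∃ h : Option (Fin n) × Bool → H n → G n,
      h = fun i z => r i z • g z + u z • hg (r i) z := ⟨_, rfl⟩
  have hClh : ∀ i, Cl 2 (fun z => r i z * u z) (h i) := by
    intro i
    rw [hh]
    refine hPRD n hn 2 (by norm_num) (by linarith) u g (r i) hCl (hcd i) (hb i) ?_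
    rw [hr]
    exact hZIQ n hn i.1 i.2
  have hiu : Integrable fun z => |u z| ^ q := by
    have h1 := hCl.1.integrable_norm_rpow (by rw [← hq]; simpa using hq0) ENNReal.ofReal_ne_top
    rw [← hq, ENNReal.toReal_ofReal hq0.le] at h1
    exact h1
  have hsq : ∀ i z, r i z ^ 2 ≤ 1 := by
    intro i z
    rw [← sq_abs]
    exact pow_le_one₀ (abs_nonneg _) (hb i z)
  have hiur : ∀ i, Integrable fun z => |u z| ^ q * r i z ^ 2 := by
    intro i
    refine hiu.mul_bdd (c := 1) (((hcd i).continuous.pow 2).aestronglyMeasurable)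
      (ae_of_all _ fun z => ?_)
    rw [Real.norm_eq_abs, abs_of_nonneg (sq_nonneg _)]
    exact hsq i z
  have hvar : ∀ i, S * (q - 1) * ∫ z, |u z| ^ q * r i z ^ 2 ≤ en 2 (h i) := by
    intro i
    rw [hq]
    refine hSV2 n hn S hS u g ⟨hCl, hms, hen⟩ (r i) (h i) 1 (hcd i).continuous.measurable (hb i)
      (hClh i) ?_
    rw [hr]
    exact hcen i.1 i.2
  have hsum := Finset.sum_le_sum fun i (_ : i ∈ Finset.univ) => hvar i
  have hL : ∑ i, S * (q - 1) * ∫ z, |u z| ^ q * r i z ^ 2 = S * (q - 1) := by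
    rw [← Finset.mul_sum, ← integral_finset_sum _ fun i _ => hiur i]
    have h1 : ∀ z, ∑ i, |u z| ^ q * r i z ^ 2 = |u z| ^ q := by
      intro z
      rw [← Finset.mul_sum, hr1, mul_one]
    simp only [h1]
    have h2 : ∫ z, |u z| ^ q = 1 := by
      rw [hq]
      exact hms
    rw [h2, mul_one]
  have hih : ∀ i, Integrable fun z => ‖h i z‖ ^ 2 := by
    intro i
    have h1 := (hClh i).2.1.integrable_norm_rpow (by simp) ENNReal.ofReal_ne_top
    rw [ENNReal.toReal_ofReal (by norm_num)] at h1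
    simpa only [Real.rpow_two] using h1
  have hig : Integrable fun z => ‖g z‖ ^ 2 := by
    have h1 := hCl.2.1.integrable_norm_rpow (by simp) ENNReal.ofReal_ne_top
    rw [ENNReal.toReal_ofReal (by norm_num)] at h1
    simpa only [Real.rpow_two] using h1
  have hpt : ∀ z, ∑ i, ‖h i z‖ ^ 2 = ‖g z‖ ^ 2 + 8 * n * (u z ^ 2 / ww z) := by
    intro z
    rw [hh]
    show ∑ i, ‖r i z • g z + u z • hg (r i) z‖ ^ 2 = _
    rw [sum_sq (fun i => r i z) (fun i => hg (r i) z) (g z) (u z), hr1, hr2, hr3, inner_zero_right]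
    ring
  have hiw : Integrable fun z => 8 * n * (u z ^ 2 / ww z) := by
    have h1 : (fun z => 8 * (n : ℝ) * (u z ^ 2 / ww z)) =
        fun z => (∑ i, ‖h i z‖ ^ 2) - ‖g z‖ ^ 2 := by
      funext z
      rw [hpt]
      ring
    rw [h1]
    exact (integrable_finset_sum _ fun i _ => hih i).sub hig
  have hR : ∑ i, en 2 (h i) = S + 8 * n * ∫ z, u z ^ 2 / ww z := by
    have h1 : ∀ i, en 2 (h i) = ∫ z, ‖h i z‖ ^ 2 := by
      intro i
      unfold en
      simp only [Real.rpow_two]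
    have h2 : ∫ z, ‖g z‖ ^ 2 = S := by
      rw [← hen]
      unfold en
      simp only [Real.rpow_two]
    simp only [h1]
    rw [← integral_finset_sum _ fun i _ => hih i]
    simp only [hpt]
    rw [integral_add hig hiw, h2, integral_const_mul]
  rw [hL, hR, hq2] at hsum
  have hkey : en 2 g ≤ 4 * (n : ℝ) ^ 2 * ∫ z, u z ^ 2 / ww z := by
    rw [hen]
    have h1 : S * (2 / n) ≤ 8 * n * ∫ z, u z ^ 2 / ww z := by linarith
    have h2 := mul_le_mul_of_nonneg_left h1 (by positivity : (0 : ℝ) ≤ n / 2)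
    have h3 : (n : ℝ) / 2 * (S * (2 / n)) = S := by
      field_simp
    rw [h3] at h2
    linarith
  obtain ⟨c, hc⟩ := hKR0 n hn u g (hGSE n hn u g hCl hkey)
  have hu0 : ∀ z : H n, 0 < u0 n z := by
    intro z
    refine Real.rpow_pos_of_pos ?_ _
    unfold ww
    have := sq_nonneg' z
    positivity
  have hc0 : 0 ≤ c := by
    obtain ⟨z, hz1, hz2⟩ := (hc.and hpos).exists
    rw [hz1] at hz2
    exact (mul_nonneg_iff_of_pos_right (hu0 z)).1 hz2
  have hm : c ^ q * ms q (u0 n) = 1 := by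
    rw [← hms, ← hq]
    unfold ms
    rw [← integral_const_mul]
    refine integral_congr_ae ?_
    filter_upwards [hc] with z hz
    rw [hz, abs_mul, abs_of_nonneg hc0, Real.mul_rpow hc0 (abs_nonneg _)]
  have hm0 : 0 ≤ ms q (u0 n) := integral_nonneg fun z => by positivity
  have hm1 : 0 < ms q (u0 n) := by
    rcases eq_or_lt_of_le hm0 with h1 | h1
    · rw [← h1, mul_zero] at hm
      exact absurd hm zero_ne_one
    · exact h1
  have hcm : c = ms q (u0 n) ^ (-(1 / q)) := by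
    have h1 : c ^ q = (ms q (u0 n))⁻¹ := eq_inv_of_mul_eq_one_left hm
    have h2 : c = (c ^ q) ^ (1 / q) := by
      rw [← Real.rpow_mul hc0, mul_one_div_cancel hq0.ne', Real.rpow_one]
    rw [h2, h1, Real.inv_rpow hm0, Real.rpow_neg hm0]
  filter_upwards [hc] with z hz
  rw [hz, hcm]
  unfold ub
  rw [hq]

end Pool.Agent.H79.HB
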