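import Pool.Agent.H27.HB.TA

/-! Row CVX of `hbe_modules`: uniform convexity for `1 < p ≤ 2`. -/

set_option autoImplicit false

namespace Pool.Agent.H79.HB
open MeasureTheory Set Filter Topology Pool.Agent.H80.HS Pool.Agent.H93.HQ Pool.Agent.H27.HB
open scoped ContDiff ENNReal

/-- derivative of `|x + t v|^p` -/
lemma der_line {n : ℕ} {p : ℝ} (hp : 1 < p) (x v : G n) (t : ℝ) :
    HasDerivAt (fun t : ℝ => ‖x + t • v‖ ^ p)
      (p * inner ℝ (‖x + t • v‖ ^ (p - 2) • (x + t • v)) v) t := by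
  have h1 : HasDerivAt (fun t : ℝ => x + t • v) v t := by
    simpa using ((hasDerivAt_id t).smul_const v).const_add x
  have h2 := (hasFDerivAt_norm_rpow (x + t • v) hp).comp_hasDerivAt t h1
  refine h2.congr_deriv ?_
  rw [inner_smul_left]
  show (p * ‖x + t • v‖ ^ (p - 2)) • (inner ℝ (x + t • v) v : ℝ) = _
  rw [smul_eq_mul, mul_assoc]
  rfl

lemma ptw (hMNO : T_MNO) {n : ℕ} {p : ℝ} (hp1 : 1 < p) (hp2 : p ≤ 2) (a b : G n) :
    p * (p - 1) / 4 * ((‖a‖ + ‖b‖) ^ (p - 2) * ‖a - b‖ ^ 2) ≤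
      ‖a‖ ^ p + ‖b‖ ^ p - 2 * ‖(1 / 2 : ℝ) • (a + b)‖ ^ p := by
  have hp0 : p ≠ 0 := by linarith
  rcases eq_or_lt_of_le (add_nonneg (norm_nonneg a) (norm_nonneg b)) with h0 | h0
  · have ha : a = 0 := norm_eq_zero.1 (le_antisymm (by linarith [norm_nonneg b]) (norm_nonneg a))
    have hb : b = 0 := norm_eq_zero.1 (le_antisymm (by linarith [norm_nonneg a]) (norm_nonneg b))
    rw [ha, hb]
    simp [Real.zero_rpow hp0]
  · obtain ⟨m, hm⟩ : ∃ m : G n, m = (1 / 2 : ℝ) • (a + b) := ⟨_, rfl⟩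
    obtain ⟨v, hv⟩ : ∃ v : G n, v = (1 / 2 : ℝ) • (a - b) := ⟨_, rfl⟩
    obtain ⟨M, hM⟩ : ∃ M : ℝ, M = ‖a‖ + ‖b‖ := ⟨_, rfl⟩
    have ha : m + v = a := by
      rw [hm, hv, ← smul_add]
      have : a + b + (a - b) = (2 : ℝ) • a := by rw [two_smul]; abel
      rw [this, smul_smul]
      norm_num
    have hb : m + -v = b := by
      rw [hm, hv, ← sub_eq_add_neg, ← smul_sub]
      have : a + b - (a - b) = (2 : ℝ) • b := by rw [two_smul]; abel
      rw [this, smul_smul]
      norm_num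
    obtain ⟨Q, hQ⟩ : ∃ Q : ℝ, Q = p * (p - 1) * (M ^ (p - 2) * ‖v‖ ^ 2) := ⟨_, rfl⟩
    obtain ⟨g, hg⟩ : ∃ g : ℝ → ℝ, g = fun t => ‖m + t • v‖ ^ p + ‖m + t • -v‖ ^ p - Q * t ^ 2 :=
      ⟨_, rfl⟩
    have hder : ∀ t, HasDerivAt g (p * inner ℝ (‖m + t • v‖ ^ (p - 2) • (m + t • v)) v +
        p * inner ℝ (‖m + t • -v‖ ^ (p - 2) • (m + t • -v)) (-v) - Q * (2 * t)) t := by
      intro t
      rw [hg]
      have h1 := ((der_line hp1 m v t).add (der_line hp1 m (-v) t)).sub
        (((hasDerivAt_id t).pow 2).const_mul Q)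
      refine h1.congr_deriv ?_
      simp
    have hmono : MonotoneOn g (Icc 0 1) := by
      refine monotoneOn_of_deriv_nonneg (convex_Icc 0 1)
        (fun t _ => (hder t).continuousAt.continuousWithinAt)
        (fun t _ => (hder t).differentiableAt.differentiableWithinAt) fun t ht => ?_
      rw [interior_Icc] at ht
      obtain ⟨ht0, ht1⟩ := ht
      rw [(hder t).deriv]
      obtain ⟨x, hx⟩ : ∃ x : G n, x = m + t • v := ⟨_, rfl⟩
      obtain ⟨y, hy⟩ : ∃ y : G n, y = m + t • -v := ⟨_, rfl⟩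
      rw [← hx, ← hy]
      have hxy : x - y = (2 * t) • v := by
        rw [hx, hy, smul_neg, mul_smul, two_smul]
        abel
      have hx' : x = ((1 + t) / 2) • a + ((1 - t) / 2) • b := by
        rw [hx, ← ha, ← hb]
        module
      have hy' : y = ((1 - t) / 2) • a + ((1 + t) / 2) • b := by
        rw [hy, ← ha, ← hb]
        module
      have hnx : ‖x‖ ≤ (1 + t) / 2 * ‖a‖ + (1 - t) / 2 * ‖b‖ := by
        rw [hx']
        refine (norm_add_le _ _).trans ?_
        rw [norm_smul, norm_smul, Real.norm_eq_abs, Real.norm_eq_abs,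
          abs_of_nonneg (by linarith : 0 ≤ (1 + t) / 2),
          abs_of_nonneg (by linarith : 0 ≤ (1 - t) / 2)]
      have hny : ‖y‖ ≤ (1 - t) / 2 * ‖a‖ + (1 + t) / 2 * ‖b‖ := by
        rw [hy']
        refine (norm_add_le _ _).trans ?_
        rw [norm_smul, norm_smul, Real.norm_eq_abs, Real.norm_eq_abs,
          abs_of_nonneg (by linarith : 0 ≤ (1 + t) / 2),
          abs_of_nonneg (by linarith : 0 ≤ (1 - t) / 2)]
      have hB : ‖x‖ + ‖y‖ ≤ M := by
        rw [hM]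
        linarith
      have hB0 : 0 < ‖x‖ + ‖y‖ := by
        rcases eq_or_lt_of_le (add_nonneg (norm_nonneg x) (norm_nonneg y)) with h1 | h1
        · exfalso
          have hx0 : x = 0 :=
            norm_eq_zero.1 (le_antisymm (by linarith [norm_nonneg y]) (norm_nonneg x))
          have hy0 : y = 0 :=
            norm_eq_zero.1 (le_antisymm (by linarith [norm_nonneg x]) (norm_nonneg y))
          have h2 : (2 * t) • v = 0 := by rw [← hxy, hx0, hy0, sub_zero]
          have hv0 : v = 0 := by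
            rcases smul_eq_zero.1 h2 with h3 | h3
            · linarith
            · exact h3
          have hm0 : m = 0 := by
            rw [hv0, smul_zero, add_zero] at hx
            rw [← hx, hx0]
          rw [hm0, hv0, add_zero] at ha
          rw [hm0, hv0, neg_zero, add_zero] at hb
          rw [← ha, ← hb, norm_zero, add_zero] at h0
          exact lt_irrefl _ h0
        · exact h1
      have hpw : M ^ (p - 2) ≤ (‖x‖ + ‖y‖) ^ (p - 2) :=
        Real.rpow_le_rpow_of_nonpos hB0 hB (by linarith)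
      have h3 := hMNO n p hp1 hp2 x y
      rw [hxy, inner_smul_right, norm_smul, mul_pow, Real.norm_eq_abs, sq_abs] at h3
      have h4 : (p - 1) * M ^ (p - 2) * ((2 * t) ^ 2 * ‖v‖ ^ 2) ≤
          2 * t * inner ℝ (‖x‖ ^ (p - 2) • x - ‖y‖ ^ (p - 2) • y) v := by
        refine le_trans ?_ h3
        have hp' : 0 ≤ p - 1 := by linarith
        gcongr
      have h5 : 2 * t * ((p - 1) * M ^ (p - 2) * (2 * t * ‖v‖ ^ 2)) ≤
          2 * t * inner ℝ (‖x‖ ^ (p - 2) • x - ‖y‖ ^ (p - 2) • y) v := by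
        refine le_trans (le_of_eq ?_) h4
        ring
      have h6 := le_of_mul_le_mul_left h5 (by positivity)
      rw [inner_sub_left] at h6
      rw [inner_neg_right]
      have h7 := mul_le_mul_of_nonneg_left h6 (by linarith : (0 : ℝ) ≤ p)
      rw [hQ]
      nlinarith
    have h := hmono (left_mem_Icc.2 zero_le_one) (right_mem_Icc.2 zero_le_one) zero_le_one
    rw [hg] at h
    simp only [zero_smul, add_zero, one_smul, ha, hb] at h
    have h1 : Q = p * (p - 1) / 4 * (M ^ (p - 2) * ‖a - b‖ ^ 2) := by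
      rw [hQ, hv, norm_smul, mul_pow]
      norm_num
      ring
    rw [← hM, ← hm, ← h1]
    nlinarith

lemma int_norm {n : ℕ} {p : ℝ} (hp : 0 < p) {f : H n → G n}
    (hf : MemLp f (ENNReal.ofReal p)) : Integrable (fun z => ‖f z‖ ^ p) := by
  have h := hf.integrable_norm_rpow (by simpa using hp) ENNReal.ofReal_ne_top
  rwa [ENNReal.toReal_ofReal hp.le] at h

lemma key {M D p : ℝ} (hp1 : 1 < p) (hM : 0 ≤ M) (hD : 0 ≤ D) (hMD : M = 0 → D = 0) :
    D ^ p = (M ^ (p - 2) * D ^ 2) ^ (p / 2) * (M ^ p) ^ (1 - p / 2) := by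
  rcases eq_or_lt_of_le hM with h | h
  · rw [hMD h.symm]
    have h1 : (0 : ℝ) ^ p = 0 := Real.zero_rpow (by linarith)
    have h2 : (0 : ℝ) ^ (p / 2) = 0 := Real.zero_rpow (by linarith)
    rw [zero_pow two_ne_zero, mul_zero, h1, h2, zero_mul]
  · rw [Real.mul_rpow (Real.rpow_nonneg hM _) (sq_nonneg D), ← Real.rpow_mul hM,
      ← Real.rpow_mul hM, ← Real.rpow_natCast D 2, ← Real.rpow_mul hD]
    have h1 : ((2 : ℕ) : ℝ) * (p / 2) = p := by
      push_cast
      ring
    rw [h1, mul_right_comm, ← Real.rpow_add h]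
    have h2 : (p - 2) * (p / 2) + p * (1 - p / 2) = 0 := by ring
    rw [h2, Real.rpow_zero, one_mul]

lemma add_rpow_le {x y p : ℝ} (hx : 0 ≤ x) (hy : 0 ≤ y) (hp : 0 < p) :
    (x + y) ^ p ≤ 2 ^ p * (x ^ p + y ^ p) := by
  have hx' := Real.rpow_nonneg hx p
  have hy' := Real.rpow_nonneg hy p
  rcases le_total x y with h | h
  · calc (x + y) ^ p ≤ (2 * y) ^ p := Real.rpow_le_rpow (by linarith) (by linarith) hp.le
      _ = 2 ^ p * y ^ p := Real.mul_rpow (by norm_num) hy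
      _ ≤ _ := by
        refine mul_le_mul_of_nonneg_left ?_ (by positivity)
        linarith
  · calc (x + y) ^ p ≤ (2 * x) ^ p := Real.rpow_le_rpow (by linarith) (by linarith) hp.le
      _ = 2 ^ p * x ^ p := Real.mul_rpow (by norm_num) hx
      _ ≤ _ := by
        refine mul_le_mul_of_nonneg_left ?_ (by positivity)
        linarith

theorem pf_CVX (hMNO : T_MNO) : T_CVX := by
  intro n p hp1 hp2
  have hp0 : 0 < p := by linarith
  obtain ⟨c, hc⟩ : ∃ c : ℝ, c = p * (p - 1) / 4 := ⟨_, rfl⟩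
  have hcp : 0 < c := by
    rw [hc]
    have : 0 < p - 1 := by linarith
    positivity
  refine ⟨(1 / c) ^ (p / 2) * (2 ^ p) ^ (1 - p / 2), by positivity, fun f g hf hg => ?_⟩
  have hif := int_norm hp0 hf
  have hig := int_norm hp0 hg
  have him : Integrable fun z => ‖(1 / 2 : ℝ) • (f z + g z)‖ ^ p :=
    int_norm hp0 ((hf.add hg).const_smul (1 / 2 : ℝ))
  have hid : Integrable fun z => ‖f z - g z‖ ^ p := int_norm hp0 (hf.sub hg)
  obtain ⟨F, hF⟩ : ∃ F : H n → ℝ, F = fun z => (‖f z‖ + ‖g z‖) ^ (p - 2) * ‖f z - g z‖ ^ 2 :=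
    ⟨_, rfl⟩
  obtain ⟨R, hR⟩ : ∃ R : H n → ℝ, R = fun z => (‖f z‖ + ‖g z‖) ^ p := ⟨_, rfl⟩
  have hF0 : ∀ z, 0 ≤ F z := fun z => by
    rw [hF]
    positivity
  have hR0 : ∀ z, 0 ≤ R z := fun z => by
    rw [hR]
    positivity
  have hD : ∀ z, c * F z ≤ ‖f z‖ ^ p + ‖g z‖ ^ p - 2 * ‖(1 / 2 : ℝ) • (f z + g z)‖ ^ p := by
    intro z
    rw [hc, hF]
    exact ptw hMNO hp1 hp2 (f z) (g z)
  have hmM : AEStronglyMeasurable (fun z => ‖f z‖ + ‖g z‖) := hf.1.norm.add hg.1.norm
  have hmF : AEStronglyMeasurable F := by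
    rw [hF]
    exact (hmM.aemeasurable.pow_const (p - 2)).aestronglyMeasurable.mul
      ((hf.1.sub hg.1).norm.pow 2)
  have hmR : AEStronglyMeasurable R := by
    rw [hR]
    exact (hmM.aemeasurable.pow_const p).aestronglyMeasurable
  have hiD : Integrable (fun z => ‖f z‖ ^ p + ‖g z‖ ^ p -
      2 * ‖(1 / 2 : ℝ) • (f z + g z)‖ ^ p) := (hif.add hig).sub (him.const_mul 2)
  have hiF : Integrable F := by
    refine (hiD.const_mul (1 / c)).mono' hmF (ae_of_all _ fun z => ?_)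
    rw [Real.norm_eq_abs, abs_of_nonneg (hF0 z), one_div, le_inv_mul_iff₀ hcp]
    exact hD z
  have hiR : Integrable R := by
    refine ((hif.add hig).const_mul (2 ^ p)).mono' hmR (ae_of_all _ fun z => ?_)
    rw [Real.norm_eq_abs, abs_of_nonneg (hR0 z), hR]
    exact add_rpow_le (norm_nonneg _) (norm_nonneg _) hp0
  have hkey : ∀ z, ‖f z - g z‖ ^ p = F z ^ (p / 2) * R z ^ (1 - p / 2) := by
    intro z
    rw [hF, hR]
    refine key hp1 (by positivity) (norm_nonneg _) fun h => ?_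
    have h1 : ‖f z‖ = 0 := le_antisymm (by linarith [norm_nonneg (g z)]) (norm_nonneg _)
    have h2 : ‖g z‖ = 0 := le_antisymm (by linarith [norm_nonneg (f z)]) (norm_nonneg _)
    rw [norm_eq_zero.1 h1, norm_eq_zero.1 h2, sub_zero, norm_zero]
  have hIF : 0 ≤ ∫ z, F z := integral_nonneg hF0
  have hIR : 0 ≤ ∫ z, R z := integral_nonneg hR0
  have hp2' : 0 ≤ 1 - p / 2 := by linarith
  have hHol : ∫ z, ‖f z - g z‖ ^ p ≤ (∫ z, F z) ^ (p / 2) * (∫ z, R z) ^ (1 - p / 2) := by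
    have h1 := ENNReal.lintegral_mul_norm_pow_le (μ := (volume : Measure (H n)))
      (f := fun z => ENNReal.ofReal (F z)) (g := fun z => ENNReal.ofReal (R z))
      hmF.aemeasurable.ennreal_ofReal hmR.aemeasurable.ennreal_ofReal (p := p / 2)
      (q := 1 - p / 2) (by positivity) hp2' (by ring)
    rw [← ofReal_integral_eq_lintegral_ofReal hiF (ae_of_all _ hF0),
      ← ofReal_integral_eq_lintegral_ofReal hiR (ae_of_all _ hR0)] at h1
    have h2 : ∫⁻ z, ENNReal.ofReal (F z) ^ (p / 2) * ENNReal.ofReal (R z) ^ (1 - p / 2) =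
        ENNReal.ofReal (∫ z, ‖f z - g z‖ ^ p) := by
      rw [ofReal_integral_eq_lintegral_ofReal hid (ae_of_all _ fun z => by positivity)]
      refine lintegral_congr fun z => ?_
      rw [hkey, ENNReal.ofReal_mul (Real.rpow_nonneg (hF0 z) _),
        ENNReal.ofReal_rpow_of_nonneg (hF0 z) (by positivity),
        ENNReal.ofReal_rpow_of_nonneg (hR0 z) hp2']
    rw [h2, ENNReal.ofReal_rpow_of_nonneg hIF (by positivity),
      ENNReal.ofReal_rpow_of_nonneg hIR hp2', ← ENNReal.ofReal_mul (Real.rpow_nonneg hIF _)] at h1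
    exact (ENNReal.ofReal_le_ofReal_iff (by positivity)).1 h1
  have hF1 : ∫ z, F z ≤ 1 / c *
      (en p f + en p g - 2 * en p (fun z => (1 / 2 : ℝ) • (f z + g z))) := by
    have h1 : ∫ z, c * F z ≤ ∫ z, (‖f z‖ ^ p + ‖g z‖ ^ p -
        2 * ‖(1 / 2 : ℝ) • (f z + g z)‖ ^ p) := integral_mono (hiF.const_mul c) hiD hD
    have h2 : ∫ z, (‖f z‖ ^ p + ‖g z‖ ^ p - 2 * ‖(1 / 2 : ℝ) • (f z + g z)‖ ^ p) =
        (∫ z, ‖f z‖ ^ p) + (∫ z, ‖g z‖ ^ p) - 2 * ∫ z, ‖(1 / 2 : ℝ) • (f z + g z)‖ ^ p := by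
      rw [← integral_add hif hig, ← integral_const_mul]
      exact integral_sub (hif.add hig) (him.const_mul 2)
    rw [integral_const_mul, h2] at h1
    rw [one_div, le_inv_mul_iff₀ hcp]
    exact h1
  have hR1 : ∫ z, R z ≤ 2 ^ p * (en p f + en p g) := by
    have h1 : ∫ z, R z ≤ ∫ z, 2 ^ p * (‖f z‖ ^ p + ‖g z‖ ^ p) := by
      refine integral_mono hiR ((hif.add hig).const_mul (2 ^ p)) fun z => ?_
      rw [hR]
      exact add_rpow_le (norm_nonneg _) (norm_nonneg _) hp0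
    rw [integral_const_mul, integral_add hif hig] at h1
    exact h1
  have hE : 0 ≤ en p f + en p g := by
    unfold en
    have := integral_nonneg (μ := (volume : Measure (H n))) (f := fun z => ‖f z‖ ^ p)
      fun z => by positivity
    have := integral_nonneg (μ := (volume : Measure (H n))) (f := fun z => ‖g z‖ ^ p)
      fun z => by positivity
    linarith
  have hΔ : 0 ≤ en p f + en p g - 2 * en p (fun z => (1 / 2 : ℝ) • (f z + g z)) := by
    have h1 := hIF.trans hF1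
    by_contra h2
    have h3 := mul_neg_of_pos_of_neg (one_div_pos.2 hcp) (not_le.1 h2)
    linarith
  calc en p (fun z => f z - g z) ≤ (∫ z, F z) ^ (p / 2) * (∫ z, R z) ^ (1 - p / 2) := hHol
    _ ≤ (1 / c * (en p f + en p g - 2 * en p (fun z => (1 / 2 : ℝ) • (f z + g z)))) ^ (p / 2) *
        (2 ^ p * (en p f + en p g)) ^ (1 - p / 2) := by
      refine mul_le_mul (Real.rpow_le_rpow hIF hF1 (by positivity))
        (Real.rpow_le_rpow hIR hR1 hp2') (Real.rpow_nonneg hIR _)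
        (Real.rpow_nonneg (mul_nonneg (one_div_pos.2 hcp).le hΔ) _)
    _ = _ := by
      rw [Real.mul_rpow (one_div_pos.2 hcp).le hΔ, Real.mul_rpow (by positivity) hE]
      ring

end Pool.Agent.H79.HB
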