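import Pool.Agent.H27.HB.TA
import Pool.Agent.H27.HB.TD

/-! Row SUP of `hbe_modules`: upper semicontinuity of the optimal constant. -/

set_option autoImplicit false

namespace Pool.Agent.H79.HB
open MeasureTheory Set Filter Topology Pool.Agent.H80.HS Pool.Agent.H93.HQ Pool.Agent.H27.HB
open scoped ContDiff ENNReal

/-- continuity in the exponent -/
lemma tendsto_exp {n : ℕ} {E : Type} [NormedAddCommGroup E] (F : H n → E) (hF : Continuous F)
    (hc : HasCompactSupport F) (e : ℕ → ℝ) (e' : ℝ) (he : Tendsto e atTop (𝓝 e')) (h0 : 0 < e') :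
    Tendsto (fun k => ∫ z, ‖F z‖ ^ e k) atTop (𝓝 (∫ z, ‖F z‖ ^ e')) := by
  obtain ⟨M, hM⟩ := hF.bounded_above_of_compact_support hc
  obtain ⟨B, hB⟩ : ∃ B : ℝ, B = max 1 M := ⟨_, rfl⟩
  have hB1 : 1 ≤ B := by
    rw [hB]
    exact le_max_left _ _
  have hBM : ∀ z, ‖F z‖ ≤ B := fun z => by
    rw [hB]
    exact (hM z).trans (le_max_right _ _)
  have hev : ∀ᶠ k in atTop, 0 < e k ∧ e k < e' + 1 :=
    (he.eventually (lt_mem_nhds h0)).and (he.eventually (gt_mem_nhds (by linarith)))
  refine tendsto_integral_filter_of_dominated_convergence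
    ((tsupport F).indicator fun _ => B ^ (e' + 1)) ?_ ?_ ?_ ?_
  · refine Eventually.of_forall fun k => ?_
    exact (hF.norm.measurable.pow_const (e k)).aestronglyMeasurable
  · filter_upwards [hev] with k hk
    refine ae_of_all _ fun z => ?_
    rw [Real.norm_eq_abs, abs_of_nonneg (Real.rpow_nonneg (norm_nonneg _) _)]
    by_cases hz : z ∈ tsupport F
    · rw [indicator_of_mem hz]
      calc ‖F z‖ ^ e k ≤ B ^ e k := Real.rpow_le_rpow (norm_nonneg _) (hBM z) hk.1.le
        _ ≤ B ^ (e' + 1) := Real.rpow_le_rpow_of_exponent_le hB1 hk.2.le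
    · rw [indicator_of_notMem hz, image_eq_zero_of_notMem_tsupport hz, norm_zero,
        Real.zero_rpow hk.1.ne']
  · rw [integrable_indicator_iff (isClosed_tsupport F).measurableSet]
    exact integrableOn_const (IsCompact.measure_lt_top hc).ne
  · refine ae_of_all _ fun z => ?_
    have h1 := (Real.continuousAt_rpow_of_pos (‖F z‖, e') h0).tendsto
    exact h1.comp ((tendsto_const_nhds (x := ‖F z‖)).prodMk_nhds he)

theorem pf_SUP (hTQ : T_TQ) (_hHGA : T_HGA) (hHGC : T_HGC) (_hCLT : T_CLT) : T_SUP := by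
  intro n hn p S P T hp hP1 hP2 hlim hS hT ε hε
  have hn0 : (0 : ℝ) < 2 * n + 2 := by positivity
  obtain ⟨φ, hφ, hms, hen⟩ := (hTQ n hn P T hP1 hP2 hT).2 ε hε
  have h1 : Tendsto (fun k => en (p k) (hg φ)) atTop (𝓝 (en P (hg φ))) :=
    tendsto_exp (hg φ) ((hHGC n φ).1 (hφ.1.of_le (by exact_mod_cast le_top)))
      ((hHGC n φ).2.2.2 hφ.2) p P hlim (by linarith)
  have hps : Tendsto (fun k => ps n (p k)) atTop (𝓝 (ps n P)) := by
    unfold ps
    exact (hlim.const_mul _).div (tendsto_const_nhds.sub hlim) (by linarith)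
  have hth : Tendsto (fun k => th n (p k)) atTop (𝓝 (th n P)) := by
    unfold th
    exact (tendsto_const_nhds.sub hlim).div_const _
  have hps0 : 0 < ps n P := by
    unfold ps
    have : 0 < 2 * (n : ℝ) + 2 - P := by linarith
    positivity
  have h2 : Tendsto (fun k => ms (ps n (p k)) φ) atTop (𝓝 1) := by
    rw [← hms]
    exact tendsto_exp φ hφ.1.continuous hφ.2 (fun k => ps n (p k)) (ps n P) hps hps0
  have h3 : Tendsto (fun k => ms (ps n (p k)) φ ^ th n (p k)) atTop (𝓝 1) := by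
    have := h2.rpow hth (Or.inl one_ne_zero)
    rwa [Real.one_rpow] at this
  have h4 : Tendsto (fun k => en (p k) (hg φ) / ms (ps n (p k)) φ ^ th n (p k)) atTop
      (𝓝 (en P (hg φ))) := by
    have := h1.div h3 one_ne_zero
    rwa [div_one] at this
  filter_upwards [h4.eventually (gt_mem_nhds hen), h3.eventually (lt_mem_nhds zero_lt_one)]
    with k hk1 hk2
  have h5 := (hTQ n hn (p k) (S k) (hp k).1 (hp k).2 (hS k)).1 φ hφ
  have h6 : S k ≤ en (p k) (hg φ) / ms (ps n (p k)) φ ^ th n (p k) := (le_div_iff₀ hk2).2 h5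
  exact h6.trans hk1.le

end Pool.Agent.H79.HB
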